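import Pool.Agent.H211.CH.Stm

/-! # Invariant polynomials are polynomials in `V` -/

set_option autoImplicit false

open Polynomial

namespace Pool.Agent.H549.CH211

open Pool.Agent.H211.CH

universe u

section

variable {K : Type u} [Field K]

/-- `K[X]` is generated by `1, X, ..., X ^ (s - 1)` over `K[V]`, `s = deg V`. -/
theorem expand (V : K[X]) (hV : 0 < V.natDegree) : ∀ (n : ℕ) (p : K[X]), p.natDegree < n →
    ∃ b : ℕ → K[X], p = ∑ i ∈ Finset.range V.natDegree, X ^ i * (b i).comp V := by
  intro n
  induction n with
  | zero => intro p hp; omega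
  | succ n ih =>
    intro p hp
    by_cases h0 : p.natDegree < V.natDegree
    · refine ⟨fun i => C (p.coeff i), ?_⟩
      have h1 := p.as_sum_range_C_mul_X_pow' h0
      rw [h1]
      refine Finset.sum_congr rfl fun i _ => ?_
      rw [← h1, C_comp, mul_comm]
    · have hV0 : V ≠ 0 := by
        rintro rfl
        simp at hV
      have h1 : V * (p / V) + p % V = p := EuclideanDomain.div_add_mod p V
      have hp0 : p ≠ 0 := by
        rintro rfl
        rw [natDegree_zero] at h0
        exact h0 hV
      have h2 : (p / V).natDegree < n := by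
        by_cases hd : p / V = 0
        · rw [hd, natDegree_zero]
          omega
        · have h5 := natDegree_lt_natDegree hd (degree_div_lt hp0 (natDegree_pos_iff_degree_pos.1 hV))
          omega
      have h3 : (p % V).natDegree < V.natDegree := natDegree_mod_lt p hV.ne'
      obtain ⟨b, hb⟩ := ih _ h2
      refine ⟨fun i => X * b i + C ((p % V).coeff i), ?_⟩
      have h4 := (p % V).as_sum_range_C_mul_X_pow' h3
      conv_lhs => rw [← h1, h4, hb]
      rw [Finset.mul_sum, ← Finset.sum_add_distrib]
      refine Finset.sum_congr rfl fun i _ => ?_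
      simp only [add_comp, mul_comp, X_comp, C_comp]
      ring

theorem transc [IsAlgClosed K] {f : K[X]} {th : LaurentSeries K}
    {r : K → (LaurentSeries K →ₐ[K] LaurentSeries K)} (h : Pui f th r) (p : K[X])
    (hp : aeval th p = 0) : p = 0 := by
  by_contra h0
  have h1 : IsAlgebraic K th := ⟨p, h0, hp⟩
  have h2 : IsIntegral K th := isAlgebraic_iff_isIntegral.1 h1
  have h3 : (minpoly K th).degree = 1 :=
    IsAlgClosed.degree_eq_one_of_irreducible K (minpoly.irreducible h2)
  obtain ⟨a, ha⟩ := minpoly.mem_range_of_degree_eq_one K th h3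
  have h4 := h.one
  rw [← ha] at h4
  have h5 : (algebraMap K (LaurentSeries K) a).coeff (-1) = 0 := by
    rw [LaurentSeries.algebraMap_apply]
    simp
  rw [h5] at h4
  exact zero_ne_one h4

end

/-- **Invariant polynomials** are polynomials in `V`. -/
theorem t_INV {K : Type u} [Field K] [IsAlgClosed K] [CharZero K] : S_INV K := by
  classical
  intro f th r h _ V p hV hVi hpi
  obtain ⟨b, hb⟩ := expand V hV _ p (Nat.lt_succ_self _)
  set s := V.natDegree with hs
  have hne : NeZero s := ⟨hV.ne'⟩
  obtain ⟨ζ, hζ⟩ := HasEnoughRootsOfUnity.exists_primitiveRoot K s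
  have hcard : (nthRootsFinset s (1 : K)).card = s := hζ.card_nthRootsFinset
  have hinj : Set.InjOn (fun ω => r ω th) (nthRootsFinset s (1 : K)) := by
    intro ω hω ω' hω' he
    have hω0 : ω ≠ 0 := by
      rintro rfl
      rw [Finset.mem_coe, mem_nthRootsFinset hV, zero_pow hV.ne'] at hω
      exact zero_ne_one hω
    have hω0' : ω' ≠ 0 := by
      rintro rfl
      rw [Finset.mem_coe, mem_nthRootsFinset hV, zero_pow hV.ne'] at hω'
      exact zero_ne_one hω'
    have h1 := congrArg (fun t : LaurentSeries K => t.coeff (-1)) he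
    simp only [h.rot ω hω0, h.rot ω' hω0', h.one, mul_one, zpow_neg, zpow_one] at h1
    exact inv_injective h1
  -- the polynomial of degree less than `s`
  set q : (LaurentSeries K)[X] :=
    ∑ i ∈ Finset.range s, C (aeval th ((b i).comp V)) * X ^ i - C (aeval th p) with hq
  have hdeg : q.natDegree < s := by
    have h1 : q.natDegree ≤ s - 1 := by
      have h3 : (∑ i ∈ Finset.range s, C (aeval th ((b i).comp V)) * X ^ i :
          (LaurentSeries K)[X]).natDegree ≤ s - 1 := by
        refine natDegree_sum_le_of_forall_le _ _ fun i hi => ?_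
        have h2 := Finset.mem_range.1 hi
        refine le_trans (natDegree_C_mul_X_pow_le _ _) ?_
        omega
      have h4 : (C (aeval th p) : (LaurentSeries K)[X]).natDegree ≤ s - 1 := by
        rw [natDegree_C]
        exact Nat.zero_le _
      exact (natDegree_sub_le _ _).trans (max_le h3 h4)
    omega
  have hroot : ∀ t ∈ (nthRootsFinset s (1 : K)).image (fun ω => r ω th), q.eval t = 0 := by
    intro t ht
    obtain ⟨ω, hω, rfl⟩ := Finset.mem_image.1 ht
    have h1 : aeval (r ω th) p = ∑ i ∈ Finset.range s,
        (r ω th) ^ i * aeval th ((b i).comp V) := by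
      conv_lhs => rw [hb]
      rw [map_sum]
      refine Finset.sum_congr rfl fun i _ => ?_
      rw [map_mul, map_pow, aeval_X, aeval_comp, aeval_comp, hVi ω hω]
    rw [hq, eval_sub, eval_finsetSum, eval_C, ← hpi ω hω, h1, sub_eq_zero]
    refine Finset.sum_congr rfl fun i _ => ?_
    rw [eval_mul, eval_C, eval_pow, eval_X, mul_comm]
  have hq0 : q = 0 := by
    refine eq_zero_of_natDegree_lt_card_of_eval_eq_zero' q _ hroot ?_
    rw [Finset.card_image_of_injOn hinj, hcard]
    exact hdeg
  have hbi : ∀ i ∈ Finset.range s, i ≠ 0 → b i = 0 := by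
    intro i hi hi0
    have h1 : q.coeff i = 0 := by rw [hq0, coeff_zero]
    rw [hq, coeff_sub, finsetSum_coeff, coeff_C, if_neg hi0, sub_zero] at h1
    simp_rw [coeff_C_mul_X_pow] at h1
    rw [Finset.sum_eq_single i] at h1
    · rw [if_pos rfl] at h1
      have h2 := transc h _ h1
      rw [comp_eq_zero_iff] at h2
      rcases h2 with h2 | h2
      · exact h2
      · exfalso
        rw [h2.2] at hs
        simp at hs
        omega
    · intro j _ hj
      rw [if_neg (Ne.symm hj)]
    · intro h2
      exact absurd hi h2
  refine ⟨b 0, ?_⟩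
  rw [hb, Finset.sum_eq_single 0]
  · simp
  · intro i hi hi0
    rw [hbi i hi hi0, zero_comp, mul_zero]
  · intro h0
    exact absurd (Finset.mem_range.2 hV) h0

end Pool.Agent.H549.CH211
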